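import Pool.Agent.R20.SCDC
import Pool.Agent.Helper998.Near.InsideDom

set_option autoImplicit false

open Finset

namespace Pool.Agent.Results.MP_ff63d6_co.AllCircuits

open Pool.Agent.Helper347.Sab

/-!
Fleischner's question: in a cubic graph of order `n` with circumference at least `n - 1` every
circuit belongs to a circuit double cover.

Let `A` be a circuit of length at least `n - 1`. If `A` passes through all vertices of `C`, the
starting files give the double cover (C is exchanged for A). Otherwise the only vertex `v` missed
by `A` lies on `C`. Then `C ∪ A` is connected and spanning, so `G / E(C)` has a spanning closed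
trail and hence a nowhere-zero 4-flow, and by the theorem `Pool.Agent.H164R2.strong` of the
starting files some circuit double cover contains `C`.
-/

variable {V E : Type} [Fintype V] [DecidableEq V] [Fintype E] [DecidableEq E]

/-- The circumference of `G` is at least (number of vertices) - 1: there is a circuit with at least
that many edges. -/
def CircumferenceAtLeastOrderMinusOne (G : MGraph V E) : Prop :=
  ∃ A : Finset E, IsCircuit G A ∧ Fintype.card V ≤ A.card + 1

/-- Let `G` be a cubic graph (finite, loopless, parallel edges allowed) with circumference at least
(order - 1). Then for every circuit `C` of `G` there is a circuit double cover containing `C`. -/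
theorem result {V E : Type} [Fintype V] [DecidableEq V] [Fintype E] [DecidableEq E]
    (G : MGraph V E) (hG : IsCubic G) (hn : CircumferenceAtLeastOrderMinusOne G)
    (C : Finset E) (hC : IsCircuit G C) :
    ∃ F : Multiset (Finset E), IsCDC G F ∧ C ∈ F := by
  obtain ⟨A, hA, hlen⟩ := id hn
  have hone := Pool.Agent.Helper998.Near.one_off G A hA hlen
  by_cases hv : ∀ v, dg G A v = 0 → dg G C v = 2
  · exact Pool.Agent.R20.strong_of_trail G hG C A hC
      (Pool.Agent.Helper998.Near.ev_circuit G A hA)
      (Pool.Agent.Helper998.Near.union_connected G C A hA hone hv)
  · push Not at hv
    obtain ⟨x, hx, hCx⟩ := hv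
    refine MP_ff63d6_co.InsideDominating.result G hG hn C hC ⟨A, hA, ?_, Or.inr (by omega)⟩
    intro v hv2
    rcases hA.2.1 v with h0 | h0
    · have := hone x v hx h0
      subst this
      exact absurd hv2 hCx
    · exact h0

end Pool.Agent.Results.MP_ff63d6_co.AllCircuits
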